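import Pool.Agent.MP_3ee8cb_gt.NSL.Defs
import Pool.Agent.MP_3ee8cb_gt.NS.Spec
import Pool.Agent.MP_3ee8cb_gt.SLN.Z

/-! A target near a rank one model: the statement layer. -/

namespace Pool.Agent.MP_3ee8cb_gt.NSL

open DN (Dim dm)
open Pool.Agent.MP_3ee8cb_gt.SL

section

variable [Dim]

theorem tr_sum (M : E dm →L[ℝ] E dm) :
    NS.tr M = ∑ i, M (EuclideanSpace.single i 1) i := by
  unfold NS.tr
  rw [LinearMap.trace_eq_sum_inner _ (EuclideanSpace.basisFun (Fin dm) ℝ)]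
  refine Finset.sum_congr rfl fun i _ => ?_
  rw [EuclideanSpace.basisFun_apply, EuclideanSpace.inner_single_left]
  simp

theorem link_tri {h : CR.Met dm} (hh : CR.Riem h) {T : Ten dm} {d : ℝ} (M : Model (pl h) T d) :
    ∃ T' : E dm → NS.T3, T = fun x u v w => T' x u v w := by
  have p : ∀ x u v w s, h x (T x u v w) s = h x (T x w s u) v := M.pair
  obtain ⟨T', e⟩ := link_bil
    (fun x u v => LinearMap.toContinuousLinearMap ((M.lin x u v).mk' _))
    (fun x u => ⟨fun v v' => ContinuousLinearMap.ext fun w => TB.gam_inj hh x (by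
        ext1 s
        change h x (T x u (v + v') w) s = h x (T x u v w + T x u v' w) s
        rw [map_add, add_apply, p, p x u v, p x u v', map_add]),
      fun c v => ContinuousLinearMap.ext fun w => TB.gam_inj hh x (by
        ext1 s
        change h x (T x u (c • v) w) s = h x (c • T x u v w) s
        rw [map_smul, smul_apply, p, p x u v, map_smul])⟩)
    (fun x v => ⟨fun u u' => ContinuousLinearMap.ext fun w => TB.gam_inj hh x (by
        ext1 s
        change h x (T x (u + u') v w) s = h x (T x u v w + T x u' v w) s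
        rw [map_add, add_apply, p, p x u v, p x u' v, (M.lin x w s).map_add, map_add, add_apply]),
      fun c u => ContinuousLinearMap.ext fun w => TB.gam_inj hh x (by
        ext1 s
        change h x (T x (c • u) v w) s = h x (c • T x u v w) s
        rw [map_smul, smul_apply, p, p x u v, (M.lin x w s).map_smul, map_smul, smul_apply])⟩)
  refine ⟨T', ?_⟩
  funext x u v w
  exact congrArg (fun f => f x u v w) e

theorem link_near {h : CR.Met dm} (hh : CR.Riem h) {δ : ℝ} (H : NearSym (pl h) δ) :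
    ∃ (a d : ℝ) (C : TB.Chr dm) (T : E dm → NS.T3), 0 < a ∧ TB.IsChr h C ∧ NS.NC h C T a d δ := by
  obtain ⟨a, d, C, T, ha, d0, d1, c, M, K⟩ := H
  obtain ⟨T, rfl⟩ := link_tri hh M
  obtain ⟨C', c', -⟩ := link_curv hh (a := a) ⟨C, c, K.neg⟩
  have e : C = fun x u v => C' x u v := by
    funext x u v
    refine TB.gam_inj hh x ?_
    ext1 w
    have e1 := c x u v w
    rw [link_dR hh, link_dR hh, link_dR hh, ← c' x u v w] at e1
    simp only [pl] at e1
    linarith
  subst e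
  have r : ∀ x u w, Rm (fun x u v => C' x u v) x u w w = TB.Rm C' x u w w := fun x u w => by
    have d : DifferentiableAt ℝ C' x :=
      ((TB.gam dm h C' hh c').smooth.differentiable (by norm_num)).differentiableAt
    unfold Rm dE TB.Rm
    rw [TB.gam_fderiv_apply d, TB.gam_fderiv_apply d]
  refine ⟨a, d, C', T, ha, c', d0, d1, M.dif, M.skew, M.pair, M.pos, fun x w => ?_, K.proj,
    fun x u w => ?_, fun x u w => ?_, fun x u w e hw he => ?_⟩
  · rw [tr_sum]
    exact M.trace x w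
  · rw [← r]
    exact K.neg x u w
  · rw [← r]
    exact K.near x u w
  · rw [he]
    exact K.par x u w hw

theorem finN {δ : ℝ} (A : NS.MainN δ)
    (g h : Met dm) (Γ Λ : Type) [Group Γ] [Group Λ] [MulAction Γ (E dm)] [MulAction Λ (E dm)]
    (Φ : ℝ → UT g → UT g) (Ψ : ℝ → UT h → UT h) (f : UM g Γ ≃ₜ UM h Λ) (hg : Riem g)
    (hh : Riem h) (dg : Deck g Γ) (dh : Deck h Λ) (sg : SL3.Smooth g Γ) (sh : SL3.Smooth h Λ)
    (fg : IsFlow g Φ) (fh : IsFlow h Ψ) (hf : Conj Φ Ψ f) (hN : NearSym h δ) :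
    SL3.Isometric g h Γ Λ := by
  obtain ⟨g, rfl, rg⟩ := link_riem hg
  obtain ⟨h, rfl, rh⟩ := link_riem hh
  have n0 : 3 ≤ dm := Nat.le_add_left 3 _
  have qg := LV.all_qp (by omega) rg (link_deck dg) (link_flow rg fg)
  have qh := LV.all_qp (by omega) rh (link_deck dh) (link_flow rh fh)
  obtain ⟨ρ, F, cj, -⟩ := LV.lift2 dm g h Γ Λ Φ Ψ f n0 qg.rp qh.rp hf
  obtain ⟨a, d, C', T, ha, c', K⟩ := link_near rh hN
  obtain ⟨C, c⟩ := SLN.chr_ex rg
  obtain ⟨G, hG⟩ := A g h C C' Γ Λ Φ Ψ ρ F qg qh c c' (sg.act 2) (sh.act 2) cj T a d ha K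
  exact ⟨G, ρ, hG⟩

end

/-- A target near a rank one model, every dimension. -/
theorem allN (A : ∀ [Dim], ∃ δ, 0 < δ ∧ NS.MainN δ)
    (n : ℕ) (hn : 3 ≤ n) : ∃ δ : ℝ, 0 < δ ∧ ∀ (g h : Met n) (Γ Λ : Type) [Group Γ] [Group Λ]
      [MulAction Γ (E n)] [MulAction Λ (E n)] (Φ : ℝ → UT g → UT g) (Ψ : ℝ → UT h → UT h)
      (f : UM g Γ ≃ₜ UM h Λ), Riem g → Riem h → Deck g Γ → Deck h Λ → SL3.Smooth g Γ →
      SL3.Smooth h Λ → IsFlow g Φ → IsFlow h Ψ → Conj Φ Ψ f →
      NearSym h δ → SL3.Isometric g h Γ Λ := by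
  obtain ⟨j, rfl⟩ : ∃ j, n = j + 3 := ⟨n - 3, by omega⟩
  obtain ⟨δ, hδ, A⟩ := @A ⟨j⟩
  exact ⟨δ, hδ, @finN ⟨j⟩ δ A⟩

end Pool.Agent.MP_3ee8cb_gt.NSL
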