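import Pool.Agent.MP_3ee8cb_gt.SL3.Defs

namespace Pool.Agent.MP_3ee8cb_gt.NSL

open Pool.Agent.MP_3ee8cb_gt.SL

variable {n : ℕ}

/-- Vector valued tensors: `T x u v w` is the value at the point `x` on `u`, `v`, `w`. -/
abbrev Ten (n : ℕ) := E n → E n → E n → E n → E n

/-- The squared area of the parallelogram spanned by `u` and `w`. -/
def Q (h : Met n) (x u w : E n) : ℝ := h x u u * h x w w - h x u w ^ 2

/-- The covariant derivative `(∇_w T)(u, w, w)` for the connection `C`. -/
noncomputable def cov (C : E n → E n → E n → E n) (T : Ten n) (x u w : E n) : E n :=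
  dE (fun y => T y u w w) x w + C x w (T x u w w) - T x (C x w u) w w - T x u (C x w w) w -
    T x u w (C x w w)

/-- `T` has the skew and pair symmetries of a curvature tensor, and the operators
`u ↦ T x u w w` are nonnegative of trace `d |w| ^ 2`. -/
structure Model (h : Met n) (T : Ten n) (d : ℝ) : Prop where
  dif : ∀ u v w, Differentiable ℝ fun x => T x u v w
  lin : ∀ x u v, IsLinearMap ℝ (T x u v)
  skew : ∀ x u v w, T x u v w = -T x v u w
  pair : ∀ x u v w s, h x (T x u v w) s = h x (T x w s u) v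
  pos : ∀ x u w, 0 ≤ h x (T x u w w) u
  trace : ∀ x w, ∑ i, T x (EuclideanSpace.single i 1) w w i = d * h x w w

/-- The operators `u ↦ T x u w w`, `w` a unit vector, are almost projections, `T` is almost
parallel, and the curvature is at most `-a ^ 2` and close to `-a ^ 2 (Q + 3 T)`. -/
structure Close (h : Met n) (C : E n → E n → E n → E n) (T : Ten n) (a δ : ℝ) : Prop where
  proj : ∀ x u w e, h x w w = 1 → e = T x (T x u w w) w w - T x u w w →
    h x e e ≤ δ ^ 2 * h x u u
  par : ∀ x u w, h x w w = 1 → h x (cov C T x u w) (cov C T x u w) ≤ (δ * a) ^ 2 * h x u u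
  neg : ∀ x u w, h x (Rm C x u w w) u ≤ -a ^ 2 * Q h x u w
  near : ∀ x u w, |h x (Rm C x u w w) u + a ^ 2 * (Q h x u w + 3 * h x (T x u w w) u)| ≤
    δ * a ^ 2 * Q h x u w

/-- The metric `h` is `δ`-near a rank one symmetric model. -/
def NearSym (h : Met n) (δ : ℝ) : Prop := ∃ (a d : ℝ) (C : E n → E n → E n → E n) (T : Ten n),
  0 < a ∧ 0 ≤ d ∧ d ≤ n - 1 ∧ IsChr h C ∧ Model h T d ∧ Close h C T a δ

end Pool.Agent.MP_3ee8cb_gt.NSL
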