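import Pool.Agent.MP_3ee8cb_gt.NS.All

/-! A closed manifold near a rank one symmetric model is determined by its geodesic flow. -/

namespace Pool.Agent.MP_3ee8cb_gt.NSL.Near

open Pool.Agent.MP_3ee8cb_gt Pool.Agent.MP_3ee8cb_gt.SL Pool.Agent.MP_3ee8cb_gt.SL3
open Pool.Agent.MP_3ee8cb_gt.NSL

theorem near (n : ℕ) (hn : 3 ≤ n) : ∃ δ : ℝ, 0 < δ ∧ ∀ (g h : Met n) (Γ Λ : Type) [Group Γ]
    [Group Λ] [MulAction Γ (E n)] [MulAction Λ (E n)] (Φ : ℝ → UT g → UT g)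
    (Ψ : ℝ → UT h → UT h) (f : UM g Γ ≃ₜ UM h Λ), Riem g → Riem h → Deck g Γ → Deck h Λ →
    Smooth g Γ → Smooth h Λ → IsFlow g Φ → IsFlow h Ψ → Conj Φ Ψ f → NearSym h δ →
    Isometric g h Γ Λ :=
  NSL.allN NS.mainN n hn

end Pool.Agent.MP_3ee8cb_gt.NSL.Near
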